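import Pool.Agent.helper96.PP2.SpecC

set_option autoImplicit false

namespace Pool.Agent.PP2

open Topology Matrix

/-- modulo an open prime ideal the commutator is trivial -/
theorem GCJ_key (hABP : ABP_stmt) (p : ℕ) (R : Type) [CommRing R] [TopologicalSpace R] [IsTopologicalRing R]
    (G : Type) [Group G] [TopologicalSpace G] [IsTopologicalGroup G]
    (ρ : G →* GL (Fin 2) R) (hp : p.Prime) (hp2 : p ≠ 2) (hG : ProP p G) (hρ : Continuous ρ)
    (k : Type) [Field k] (f : R →+* k) (hf : IsOpen {r : R | f r = 0}) (g h : G) (i j : Fin 2) :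
    f (((ρ (g * h * g⁻¹ * h⁻¹) : GL (Fin 2) R) : Matrix (Fin 2) (Fin 2) R) i j) =
      (1 : Matrix (Fin 2) (Fin 2) k) i j := by
  set σ : G →* GL (Fin 2) k := (Matrix.GeneralLinearGroup.map f).comp ρ with hσ
  have hσe : ∀ (x : G) (a b : Fin 2), ((σ x : GL (Fin 2) k) : Matrix (Fin 2) (Fin 2) k) a b =
      f (((ρ x : GL (Fin 2) R) : Matrix (Fin 2) (Fin 2) R) a b) := fun x a b => rfl
  have hker : (σ.ker : Set G) = ⋂ a : Fin 2, ⋂ b : Fin 2,
      {x : G | f (((ρ x : GL (Fin 2) R) : Matrix (Fin 2) (Fin 2) R) a b - (1 : Matrix (Fin 2) (Fin 2) R) a b) = 0} := by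
    ext x
    simp only [SetLike.mem_coe, MonoidHom.mem_ker, Set.mem_iInter, Set.mem_ofPred_eq, map_sub]
    have h1 : ∀ a b : Fin 2, f ((1 : Matrix (Fin 2) (Fin 2) R) a b) = (1 : Matrix (Fin 2) (Fin 2) k) a b := by
      intro a b
      rw [Matrix.one_apply, Matrix.one_apply]
      split_ifs <;> simp
    constructor
    · intro hx a b
      rw [h1, ← hσe, hx, sub_eq_zero]
      rfl
    · intro hx
      apply Units.ext
      ext a b
      have := hx a b
      rw [h1, ← hσe, sub_eq_zero] at this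
      exact this
  have hopen : IsOpen (σ.ker : Set G) := by
    rw [hker]
    refine isOpen_iInter_of_finite fun a => isOpen_iInter_of_finite fun b => ?_
    have hc : Continuous fun x : G => ((ρ x : GL (Fin 2) R) : Matrix (Fin 2) (Fin 2) R) a b -
        (1 : Matrix (Fin 2) (Fin 2) R) a b :=
      (((Units.continuous_val.comp hρ).matrix_elem a b)).sub continuous_const
    exact hf.preimage hc
  obtain ⟨m, hm⟩ := hG σ.ker hopen inferInstance
  rw [Subgroup.index_ker] at hm
  have hfin : Finite σ.range := by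
    apply Nat.finite_of_card_ne_zero
    rw [hm]
    exact pow_ne_zero _ hp.ne_zero
  have hP : IsPGroup p σ.range := IsPGroup.of_card hm
  have hcomm := hABP p k σ.range hp hp2 hfin hP (σ g) ⟨g, rfl⟩ (σ h) ⟨h, rfl⟩
  have hc : σ (g * h * g⁻¹ * h⁻¹) = 1 := by
    rw [map_mul, map_mul, map_mul, map_inv, map_inv, hcomm]
    group
  rw [← hσe, hc]
  rfl

/-- GCJ -/
theorem GCJ_row (hABP : ABP_stmt) : GCJ_stmt := by
  intro p R _ _ _ _ _ J G _ _ _ ρ hp hp2 hJ hG hρ g h
  rw [Lib_mem_Sg]
  constructor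
  · have h1 : Matrix.GeneralLinearGroup.det (ρ (g * h * g⁻¹ * h⁻¹)) = 1 := by
      simp only [map_mul, map_inv]
      rw [mul_comm (Matrix.GeneralLinearGroup.det (ρ g)) (Matrix.GeneralLinearGroup.det (ρ h))]
      group
    exact congrArg Units.val h1
  · intro i j
    rw [hJ]
    intro I hI
    have hrad : (((ρ (g * h * g⁻¹ * h⁻¹) : GL (Fin 2) R) : Matrix (Fin 2) (Fin 2) R) - 1) i j ∈ I.radical := by
      rw [Ideal.radical_eq_sInf, Ideal.mem_sInf]
      intro P hP
      obtain ⟨hIP, hPp⟩ := hP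
      have hPo : IsOpen (P : Set R) := by
        have := AddSubgroup.isOpen_mono (H₁ := I.toAddSubgroup) (H₂ := P.toAddSubgroup) hIP hI
        exact this
      have hfin : Finite (R ⧸ P) := by
        have := AddSubgroup.quotient_finite_of_isOpen P.toAddSubgroup hPo
        exact this
      have hdom : IsDomain (R ⧸ P) := Ideal.Quotient.isDomain P
      have hmax : P.IsMaximal := Ideal.Quotient.maximal_of_isField P (Finite.isField_of_domain (R ⧸ P))
      let _ : Field (R ⧸ P) := Ideal.Quotient.field P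
      have hop : IsOpen {r : R | (Ideal.Quotient.mk P) r = 0} := by
        have e : {r : R | (Ideal.Quotient.mk P) r = 0} = (P : Set R) := by
          ext r
          exact Ideal.Quotient.eq_zero_iff_mem
        rw [e]
        exact hPo
      have hk := GCJ_key hABP p R G ρ hp hp2 hG hρ (R ⧸ P) (Ideal.Quotient.mk P) hop g h i j
      rw [← Ideal.Quotient.eq_zero_iff_mem, Matrix.sub_apply, map_sub, hk, Matrix.one_apply, Matrix.one_apply]
      split_ifs <;> simp
    obtain ⟨n, hn⟩ := hrad
    exact ⟨n, hn⟩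

end Pool.Agent.PP2
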