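import Pool.Agent.helper96.PP2.SpecC

/-!
# Row pg:TFL: no p-torsion in the second member of the descending sequence
-/

namespace Pool.Agent.PP2

open Topology Matrix

theorem TFL_cyc {R : Type} [CommRing R] (C : Subring R) (X Y : M2 R) :
    Y ∈ CX C X ↔ ∃ c ∈ C, c • X = Y := by
  unfold CX
  rw [AddSubgroup.mem_map]
  rfl

theorem TFL_row (hTOR : TOR_stmt) (hSUB : SUB_stmt) (hLTR : LTR_stmt) (hADM : ADM_stmt) (hEXI : EXI_stmt) (hAPX : APX_stmt) (hHCL : HCL_stmt) (hIDX : IDX_stmt) (hCTM : CTM_stmt) (hMOX : MOX_stmt) (hPID : PID_stmt) (hAFI : AFI_stmt) (hTDG : TDG_stmt) : TFL_stmt := by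
  intro p R _ _ _ _ _ _ J hp hp2 hS Γ hΓ hcl hH X hX hpX
  by_contra hX0
  obtain ⟨hC, hBf, hsm⟩ := hCTM p R J hp hp2 hS Γ hΓ
  obtain ⟨-, hL⟩ := hLTR p R J hp hp2 hS Γ hΓ 1
  obtain ⟨htr, hent⟩ := hL X hX
  have hle : Lc Γ 1 ≤ LL Γ := by
    have hA0 := hADM p R J hp hp2 hS Γ hΓ 0
    have hA0' : Adm J (LL Γ) := hA0
    change (AddSubgroup.closure {Z | ∃ X ∈ LL Γ, ∃ Y ∈ Lc Γ 0, Z = Br X Y}).topologicalClosure
      ≤ LL Γ
    refine AddSubgroup.topologicalClosure_minimal _ ?_ hA0'.closed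
    rw [AddSubgroup.closure_le]
    rintro Z ⟨U, hU, V, hV, rfl⟩
    exact hA0'.br U hU V hV
  have hXL : X ∈ LL Γ := hle hX
  have hXX : Bf X X ∈ Ct Γ := hBf X hXL X hXL
  have hN1 : CX (Ct Γ) X ≤ Lc Γ 1 := by
    intro Y hY
    obtain ⟨c, hc, rfl⟩ := (TFL_cyc _ _ _).1 hY
    exact hsm c hc 1 X hX
  have hAdm : Adm J (CX (Ct Γ) X) := hMOX p R J hp hp2 hS (Ct Γ) X hC htr hent hXX
  obtain ⟨hSg, hES⟩ := hSUB p R J hp hp2 hS
  obtain ⟨hESN, hESNc⟩ := hES _ hAdm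
  have hAΓ : ES J (CX (Ct Γ) X) ≤ Γ := by
    refine le_trans ?_ (hAPX p R J hp hp2 hS Γ hΓ hcl)
    refine Subgroup.closure_mono ?_
    rintro g ⟨hg1, hg2⟩
    exact ⟨hg1, hN1 hg2⟩
  have hHA : H3Zero p (ES J (CX (Ct Γ) X)) :=
    hHCL p R J hp hS Γ _ hcl hESNc hAΓ hH
  have hfin := hAFI p R J hp hp2 hS (Ct Γ) X hC htr hent hXX hHA
  have hsN : sN (p : R) (CX (Ct Γ) X) = ⊥ := by
    rw [eq_bot_iff]
    intro Y hY
    obtain ⟨Z, hZ, rfl⟩ := AddSubgroup.mem_map.1 hY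
    obtain ⟨c, hc, rfl⟩ := (TFL_cyc _ _ _).1 hZ
    change (p : R) • (c • X) ∈ (⊥ : AddSubgroup (M2 R))
    rw [smul_comm, hpX, smul_zero]
    exact AddSubgroup.zero_mem _
  rw [hsN, AddSubgroup.relIndex_bot_left] at hfin
  obtain ⟨hId, -⟩ := hPID p R J hp hp2 hS (Ct Γ) X hC htr hent hXX
  obtain ⟨-, hidx, -⟩ := hIDX p R J hp hp2 hS ⊥ _ hId
  have hbot : ES J (⊥ : AddSubgroup (M2 R)) = ⊥ := by
    rw [eq_bot_iff]
    intro g hg
    obtain ⟨hE1, -⟩ := hES _ hId.adm'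
    obtain ⟨hg1, hg2⟩ := (hE1 g).1 hg
    have hg3 : TH g = 0 := by
      rwa [AddSubgroup.mem_bot] at hg2
    have h1 : TH (1 : GL (Fin 2) R) = 0 := by
      unfold TH
      rw [Units.val_one]
      exact Lib_Th_one
    have h2 := (hEXI p R J hp hp2 hS).2 g hg1 1 (Subgroup.one_mem _) (by rw [hg3, h1])
    rw [h2]
    exact Subgroup.one_mem _
  rw [hbot, Subgroup.relIndex_bot_left, AddSubgroup.relIndex_bot_left] at hidx
  -- the finite group N has an element of order p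
  have hXN : X ∈ CX (Ct Γ) X := (TFL_cyc _ _ _).2 ⟨1, Subring.one_mem _, one_smul _ _⟩
  haveI : Fact p.Prime := ⟨hp⟩
  have hord : addOrderOf (⟨X, hXN⟩ : CX (Ct Γ) X) = p := by
    refine addOrderOf_eq_prime ?_ ?_
    · apply Subtype.ext
      change p • X = 0
      rw [← Nat.cast_smul_eq_nsmul R]
      exact hpX
    · intro h
      exact hX0 (congrArg Subtype.val h)
  have hdvd : p ∣ Nat.card (ES J (CX (Ct Γ) X)) := by
    rw [hidx, ← hord]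
    exact addOrderOf_dvd_natCard _
  haveI : Finite (ES J (CX (Ct Γ) X)) := by
    refine Nat.finite_of_card_ne_zero ?_
    rw [hidx]
    exact hfin
  obtain ⟨a, ha⟩ := exists_prime_orderOf_dvd_card' p hdvd
  obtain ⟨hK1, hK2, hK3⟩ := hTDG p R J hS
  haveI : CompactSpace (ES J (CX (Ct Γ) X)) := isCompact_iff_compactSpace.1 hESNc.isCompact
  have ha1 := hTOR p (ES J (CX (Ct Γ) X)) hp hHA a (by rw [← ha]; exact pow_orderOf_eq_one a)
  rw [ha1, orderOf_one] at ha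
  exact hp.one_lt.ne ha

end Pool.Agent.PP2
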